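import Pool.Agent.Helper36_XQ.Stmt5

/-!
Squad XQ (MP_5b0138_an), part E4, module TRE: nearly minimal triangles.
-/

set_option autoImplicit false

namespace Pool.Agent.XQ.K4.H43

open MeasureTheory Complex Filter Topology ProbabilityTheory Pool.Agent.H16Iso Pool.Agent.H62T
  Pool.Agent.H16F Pool.Agent.H38KL Pool.Agent.AEU

theorem ip_exp (θ : ℝ) (z : ℂ) :
    ip (exp (θ * I)) z = Real.cos θ * z.re + Real.sin θ * z.im := by
  unfold ip
  rw [exp_ofReal_mul_I_re, exp_ofReal_mul_I_im]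

theorem cosin_le_norm (θ : ℝ) (z : ℂ) : Real.cos θ * z.re + Real.sin θ * z.im ≤ ‖z‖ := by
  have h1 : ‖z‖ ^ 2 = z.re ^ 2 + z.im ^ 2 := by
    rw [← normSq_eq_norm_sq, normSq_apply]; ring
  have h2 := Real.sin_sq_add_cos_sq θ
  have h3 := norm_nonneg z
  by_contra h
  push Not at h
  nlinarith only [h1, h2, h3, h, sq_nonneg (Real.cos θ * z.im - Real.sin θ * z.re)]

theorem cosin_eq (θ : ℝ) (z : ℂ) (h : Real.cos θ * z.re + Real.sin θ * z.im = ‖z‖) :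
    z.re = ‖z‖ * Real.cos θ ∧ z.im = ‖z‖ * Real.sin θ := by
  have h1 : ‖z‖ ^ 2 = z.re ^ 2 + z.im ^ 2 := by
    rw [← normSq_eq_norm_sq, normSq_apply]; ring
  have h2 := Real.sin_sq_add_cos_sq θ
  have h4 : (z.re - ‖z‖ * Real.cos θ) ^ 2 + (z.im - ‖z‖ * Real.sin θ) ^ 2 = 0 := by
    have e : (z.re - ‖z‖ * Real.cos θ) ^ 2 + (z.im - ‖z‖ * Real.sin θ) ^ 2
      = (z.re ^ 2 + z.im ^ 2) - 2 * ‖z‖ * (Real.cos θ * z.re + Real.sin θ * z.im)
        + ‖z‖ ^ 2 * (Real.sin θ ^ 2 + Real.cos θ ^ 2) := by ring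
    rw [e, h, ← h1, h2]; ring
  constructor
  · nlinarith only [h4, sq_nonneg (z.re - ‖z‖ * Real.cos θ), sq_nonneg (z.im - ‖z‖ * Real.sin θ)]
  · nlinarith only [h4, sq_nonneg (z.re - ‖z‖ * Real.cos θ), sq_nonneg (z.im - ‖z‖ * Real.sin θ)]

theorem cos_gE (δ1 δ2 : ℝ) : Real.cos (gE δ1 δ2) = Real.sin (δ2 - δ1) := by
  unfold gE
  rw [Real.cos_sub_pi_div_two]

theorem sin_gE (δ1 δ2 : ℝ) : Real.sin (gE δ1 δ2) = -Real.cos (δ2 - δ1) := by
  unfold gE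
  rw [Real.sin_sub_pi_div_two]

/-- the trigonometric identity behind the certificate -/
theorem cert (δ1 δ2 : ℝ) (x0 y0 x2 y2 x3 y3 : ℝ) :
    (Real.cos (-gE δ1 δ2) * (x2 - x0) + Real.sin (-gE δ1 δ2) * (y2 - y0))
      + (Real.cos (δ1 + δ2 - Real.pi / 2) * (x2 - x3)
        + Real.sin (δ1 + δ2 - Real.pi / 2) * (y2 - y3))
      + (Real.cos (gE δ1 δ2) * (x3 - x0) + Real.sin (gE δ1 δ2) * (y3 - y0))
    = 2 * Real.sin δ2 * (Real.cos δ1 * x2 + Real.sin δ1 * y2)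
      - 2 * Real.sin δ1 * (Real.cos δ2 * x3 + Real.sin δ2 * y3)
      - 2 * Real.sin (δ2 - δ1) * x0 := by
  rw [Real.cos_neg, Real.sin_neg, cos_gE, sin_gE, Real.cos_sub_pi_div_two,
    Real.sin_sub_pi_div_two, Real.sin_sub, Real.cos_sub, Real.sin_add, Real.cos_add]
  ring

/-- the three legs, as functions of the three points -/
theorem tri_ge (δ1 δ2 : ℝ) (p0 p2 p3 : ℂ) :
    2 * Real.sin δ2 * ip (exp (δ1 * I)) p2 - 2 * Real.sin δ1 * ip (exp (δ2 * I)) p3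
      - 2 * Real.sin (δ2 - δ1) * p0.re ≤ ‖p0 - p2‖ + ‖p2 - p3‖ + ‖p3 - p0‖ := by
  have c := cert δ1 δ2 p0.re p0.im p2.re p2.im p3.re p3.im
  have h1 := cosin_le_norm (-gE δ1 δ2) (p2 - p0)
  have h2 := cosin_le_norm (δ1 + δ2 - Real.pi / 2) (p2 - p3)
  have h3 := cosin_le_norm (gE δ1 δ2) (p3 - p0)
  rw [sub_re, sub_im] at h1 h2 h3
  rw [ip_exp, ip_exp, ← c, norm_sub_rev p0 p2]
  linarith only [h1, h2, h3]

theorem LE_eq (δ1 δ2 ρ : ℝ) : LE δ1 δ2 ρ = 2 * Real.sin δ2 * ip (exp (δ1 * I)) ρ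
    - 2 * Real.sin δ1 * ip (exp (δ2 * I)) ρ := by
  unfold LE
  rw [ip_exp, ip_exp, ofReal_re, ofReal_im, Real.sin_sub]
  ring

/-- uniqueness of the minimal triangle -/
theorem uniq (δ1 δ2 ρ : ℝ) (H : HyL δ1 δ2 ρ) (p0 p2 p3 : ℂ) (a0 : p0.re ≤ 0)
    (a2 : ip (exp (δ1 * I)) ρ ≤ ip (exp (δ1 * I)) p2)
    (a3 : ip (exp (δ2 * I)) ρ ≤ ip (exp (δ2 * I)) p3)
    (a4 : ‖p0 - p2‖ + ‖p2 - p3‖ + ‖p3 - p0‖ ≤ LE δ1 δ2 ρ) :
    p0 = 0 ∧ p2 = Qp δ1 δ2 ρ ∧ p3 = Rp δ1 δ2 ρ := by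
  have s2 : 0 < Real.sin δ2 := Real.sin_pos_of_pos_of_lt_pi H.b3 (by linarith [H.b4, Real.pi_pos])
  have s1 : Real.sin δ1 < 0 :=
    Real.sin_neg_of_neg_of_neg_pi_lt H.b2 (by linarith [H.b1, Real.pi_pos])
  have c1 : 0 < Real.cos δ1 := Real.cos_pos_of_mem_Ioo ⟨H.b1, by linarith [H.b2, Real.pi_pos]⟩
  have c2 : 0 < Real.cos δ2 := Real.cos_pos_of_mem_Ioo ⟨by linarith [H.b3, Real.pi_pos], H.b4⟩
  have s21 : 0 < Real.sin (δ2 - δ1) := Real.sin_pos_of_pos_of_lt_pi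
    (by linarith [H.b2, H.b3]) (by linarith [H.b1, H.b4])
  have c := cert δ1 δ2 p0.re p0.im p2.re p2.im p3.re p3.im
  have h1 := cosin_le_norm (-gE δ1 δ2) (p2 - p0)
  have h2 := cosin_le_norm (δ1 + δ2 - Real.pi / 2) (p2 - p3)
  have h3 := cosin_le_norm (gE δ1 δ2) (p3 - p0)
  rw [LE_eq, norm_sub_rev p0 p2] at a4
  have hL1 : 0 ≤ Real.sin δ2 * (ip (exp (δ1 * I)) p2 - ip (exp (δ1 * I)) ρ) :=
    mul_nonneg s2.le (by linarith only [a2])
  have hL2 : 0 ≤ -Real.sin δ1 * (ip (exp (δ2 * I)) p3 - ip (exp (δ2 * I)) ρ) :=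
    mul_nonneg (by linarith only [s1]) (by linarith)
  have hL3 : 0 ≤ Real.sin (δ2 - δ1) * (-p0.re) := mul_nonneg s21.le (by linarith)
  have i1 := ip_exp δ1 p2
  have i2 := ip_exp δ2 p3
  rw [← i1, ← i2] at c
  have d1 : (p2 - p0).re = p2.re - p0.re := sub_re _ _
  have d2 : (p2 - p0).im = p2.im - p0.im := sub_im _ _
  have d3 : (p2 - p3).re = p2.re - p3.re := sub_re _ _
  have d4 : (p2 - p3).im = p2.im - p3.im := sub_im _ _
  have d5 : (p3 - p0).re = p3.re - p0.re := sub_re _ _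
  have d6 : (p3 - p0).im = p3.im - p0.im := sub_im _ _
  rw [d1, d2] at h1
  rw [d3, d4] at h2
  rw [d5, d6] at h3
  have e1 : Real.cos (-gE δ1 δ2) * (p2 - p0).re + Real.sin (-gE δ1 δ2) * (p2 - p0).im
      = ‖p2 - p0‖ := by rw [d1, d2]; linarith only [a4, c, h2, h3, hL1, hL2, hL3, h1]
  have e2 : Real.cos (δ1 + δ2 - Real.pi / 2) * (p2 - p3).re
      + Real.sin (δ1 + δ2 - Real.pi / 2) * (p2 - p3).im = ‖p2 - p3‖ := by
    rw [d3, d4]; linarith
  have e3 : Real.cos (gE δ1 δ2) * (p3 - p0).re + Real.sin (gE δ1 δ2) * (p3 - p0).im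
      = ‖p3 - p0‖ := by rw [d5, d6]; linarith
  have f1 : Real.sin δ2 * (ip (exp (δ1 * I)) p2 - ip (exp (δ1 * I)) ρ) = 0 := by linarith
  have f2 : -Real.sin δ1 * (ip (exp (δ2 * I)) p3 - ip (exp (δ2 * I)) ρ) = 0 := by linarith
  have f3 : Real.sin (δ2 - δ1) * (-p0.re) = 0 := by linarith
  have g1 : ip (exp (δ1 * I)) p2 = ip (exp (δ1 * I)) ρ := by
    rcases mul_eq_zero.1 f1 with h | h <;> linarith only [s2, h]
  have g2 : ip (exp (δ2 * I)) p3 = ip (exp (δ2 * I)) ρ := by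
    rcases mul_eq_zero.1 f2 with h | h <;> linarith only [s1, h]
  have g3 : p0.re = 0 := by
    rcases mul_eq_zero.1 f3 with h | h <;> linarith only [s21, h]
  obtain ⟨k1, k2⟩ := cosin_eq _ _ e1
  obtain ⟨k3, k4⟩ := cosin_eq _ _ e2
  obtain ⟨k5, k6⟩ := cosin_eq _ _ e3
  rw [d1, Real.cos_neg, cos_gE] at k1
  rw [d2, Real.sin_neg, sin_gE] at k2
  rw [d3, Real.cos_sub_pi_div_two, Real.sin_add] at k3
  rw [d4, Real.sin_sub_pi_div_two, Real.cos_add] at k4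
  rw [d5, cos_gE] at k5
  rw [d6, sin_gE] at k6
  rw [ip_exp, ip_exp, ofReal_re, ofReal_im, mul_zero, add_zero] at g1 g2
  rw [Real.sin_sub] at k1 k5 s21
  rw [Real.cos_sub] at k2 k6
  have q1 := Real.sin_sq_add_cos_sq δ1
  have q2 := Real.sin_sq_add_cos_sq δ2
  set S1 := Real.sin δ1 with hS1
  set S2 := Real.sin δ2 with hS2
  set C1 := Real.cos δ1 with hC1
  set C2 := Real.cos δ2 with hC2
  rw [g3] at k1 k5
  set y := p0.im with hy
  set s := ‖p2 - p0‖ with hs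
  set s' := ‖p3 - p0‖ with hs'
  have m1 : p2.re = s * (S2 * C1 - C2 * S1) := by linarith only [k1]
  have m2 : p2.im = y + s * (C2 * C1 + S2 * S1) := by linarith only [k2]
  have m3 : p3.re = s' * (S2 * C1 - C2 * S1) := by linarith only [k5]
  have m4 : p3.im = y - s' * (C2 * C1 + S2 * S1) := by linarith only [k6]
  have n1 : s * S2 + S1 * y = C1 * ρ := by
    rw [← g1, m1, m2]
    linear_combination (-(s * S2)) * q1
  have n2 : -(s' * S1) + S2 * y = C2 * ρ := by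
    rw [← g2, m3, m4]
    linear_combination (s' * S1) * q2
  have n3 : s * S2 * C2 = -(s' * S1 * C1) := by
    have e : (p2.re - p3.re) * (-(C1 * C2 - S1 * S2)) = (p2.im - p3.im) * (S1 * C2 + C1 * S2) := by
      rw [k3, k4]; ring
    rw [m1, m2, m3, m4] at e
    linear_combination (-(1:ℝ)/2) * e - (s * S2 * C2) * q1 - (s' * S1 * C1) * q2
  have n4 : (S2 * C1 - C2 * S1) * y = 0 := by
    linear_combination C1 * n2 - C2 * n1 + n3
  have n5 : y = 0 := by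
    rcases mul_eq_zero.1 n4 with h | h
    · exact absurd h s21.ne'
    · exact h
  have n6 : s = ρ * C1 / S2 := by
    rw [eq_div_iff s2.ne']
    rw [n5] at n1
    linarith only [n1]
  have n7 : s' = ρ * C2 / -S1 := by
    rw [eq_div_iff (by linarith only [s1])]
    rw [n5] at n2
    linarith only [n2]
  refine ⟨Complex.ext (by rw [g3, zero_re]) (by rw [zero_im]; exact n5), ?_, ?_⟩
  · unfold Qp sq
    rw [← hS2, ← hC1, ← n6, ← neg_mul, ← ofReal_neg]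
    apply Complex.ext
    · rw [re_mul_ofReal, exp_ofReal_mul_I_re, Real.cos_neg, cos_gE, Real.sin_sub, m1]; ring
    · rw [im_mul_ofReal, exp_ofReal_mul_I_im, Real.sin_neg, sin_gE, Real.cos_sub, m2, n5]; ring
  · unfold Rp sr
    rw [← hS1, ← hC2, ← n7]
    apply Complex.ext
    · rw [re_mul_ofReal, exp_ofReal_mul_I_re, cos_gE, Real.sin_sub, m3]; ring
    · rw [im_mul_ofReal, exp_ofReal_mul_I_im, sin_gE, Real.cos_sub, m4, n5]; ring

/-- a priori bound -/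
theorem bdd (δ1 δ2 ρ : ℝ) (H : HyL δ1 δ2 ρ) : ∃ R : ℝ, ∀ p0 p2 p3 : ℂ, p0.re ≤ 1 →
    ip (exp (δ1 * I)) ρ - 1 ≤ ip (exp (δ1 * I)) p2 →
    ip (exp (δ2 * I)) ρ - 1 ≤ ip (exp (δ2 * I)) p3 →
    ‖p0 - p2‖ + ‖p2 - p3‖ + ‖p3 - p0‖ < LE δ1 δ2 ρ + 1 →
    ‖p0‖ ≤ R ∧ ‖p2‖ ≤ R ∧ ‖p3‖ ≤ R := by
  have s2 : 0 < Real.sin δ2 := Real.sin_pos_of_pos_of_lt_pi H.b3 (by linarith [H.b4, Real.pi_pos])
  have s1 : Real.sin δ1 < 0 :=
    Real.sin_neg_of_neg_of_neg_pi_lt H.b2 (by linarith [H.b1, Real.pi_pos])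
  have c1 : 0 < Real.cos δ1 := Real.cos_pos_of_mem_Ioo ⟨H.b1, by linarith [H.b2, Real.pi_pos]⟩
  have c2 : 0 < Real.cos δ2 := Real.cos_pos_of_mem_Ioo ⟨by linarith [H.b3, Real.pi_pos], H.b4⟩
  have s21 : 0 < Real.sin (δ2 - δ1) := Real.sin_pos_of_pos_of_lt_pi
    (by linarith [H.b2, H.b3]) (by linarith [H.b1, H.b4])
  set L := LE δ1 δ2 ρ with hL
  set h2 := ip (exp (δ1 * I)) ρ with hh2
  set h3 := ip (exp (δ2 * I)) ρ with hh3
  have hL2 : L = 2 * Real.sin δ2 * h2 - 2 * Real.sin δ1 * h3 := LE_eq δ1 δ2 ρ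
  set R1 := 5 / (2 * Real.sin (δ2 - δ1)) + 1 with hR1
  set R2 := |(L + 3 - h2) / -Real.sin δ1| + |(L + 3 - h3) / Real.sin δ2| with hR2
  refine ⟨R1 + R2 + |L| + 1, ?_⟩
  intro p0 p2 p3 a0 a2 a3 a4
  have T := tri_ge δ1 δ2 p0 p2 p3
  have t1 : -(2 * Real.sin (δ2 - δ1) * p0.re) ≤ 5 := by
    have u1 : 2 * Real.sin δ2 * (h2 - 1) ≤ 2 * Real.sin δ2 * ip (exp (δ1 * I)) p2 :=
      mul_le_mul_of_nonneg_left a2 (by linarith only [s2])
    have u2 : 2 * (-Real.sin δ1) * (h3 - 1) ≤ 2 * (-Real.sin δ1) * ip (exp (δ2 * I)) p3 :=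
      mul_le_mul_of_nonneg_left a3 (by linarith)
    have u3 := Real.sin_le_one δ2
    have u4 := Real.neg_one_le_sin δ1
    linarith only [hL2, a4, T, u1, u2, u3, u4]
  have R1p : 0 ≤ 5 / (2 * Real.sin (δ2 - δ1)) := by positivity
  have t2 : |p0.re| ≤ R1 := by
    rw [abs_le]
    constructor
    · rw [hR1]
      have : -p0.re ≤ 5 / (2 * Real.sin (δ2 - δ1)) := by
        rw [le_div_iff₀ (by linarith)]
        linarith
      linarith
    · rw [hR1]; linarith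
  have np := norm_nonneg (p0 - p2)
  have np2 := norm_nonneg (p2 - p3)
  have np3 := norm_nonneg (p3 - p0)
  have v1 := cosin_le_norm δ1 (p2 - p0)
  have v2 := cosin_le_norm δ2 (p3 - p0)
  rw [sub_re, sub_im] at v1 v2
  rw [ip_exp] at a2 a3
  rw [norm_sub_rev p2 p0] at v1
  have w1 := Real.cos_le_one δ1
  have w2 := Real.cos_le_one δ2
  have z1 : Real.cos δ1 * p0.re ≤ 1 := by nlinarith only [w1, c1, a0]
  have z2 : Real.cos δ2 * p0.re ≤ 1 := by nlinarith only [w2, c2, a0]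
  have y1 : -Real.sin δ1 * p0.im ≤ L + 3 - h2 := by linarith only [a2, a4, np2, np3, v1, z1]
  have y2 : Real.sin δ2 * (-p0.im) ≤ L + 3 - h3 := by linarith only [a3, a4, np, np2, v2, z2]
  have t3 : |p0.im| ≤ R2 := by
    rw [abs_le]
    constructor
    · have : -p0.im ≤ (L + 3 - h3) / Real.sin δ2 := by
        rw [le_div_iff₀ s2]; linarith
      have b1 := le_abs_self ((L + 3 - h3) / Real.sin δ2)
      have b2 := abs_nonneg ((L + 3 - h2) / -Real.sin δ1)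
      rw [hR2]; linarith
    · have : p0.im ≤ (L + 3 - h2) / -Real.sin δ1 := by
        rw [le_div_iff₀ (by linarith)]; linarith
      have b1 := le_abs_self ((L + 3 - h2) / -Real.sin δ1)
      have b2 := abs_nonneg ((L + 3 - h3) / Real.sin δ2)
      rw [hR2]; linarith
  have t4 : ‖p0‖ ≤ R1 + R2 := (norm_le_abs_re_add_abs_im p0).trans (add_le_add t2 t3)
  have lL := le_abs_self L
  refine ⟨by linarith [abs_nonneg L], ?_, ?_⟩
  · have : ‖p2‖ ≤ ‖p0‖ + ‖p0 - p2‖ := by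
      have := norm_sub_le p0 (p0 - p2)
      rwa [sub_sub_cancel] at this
    linarith only [a4, np2, np3, t4, lL, this]
  · have : ‖p3‖ ≤ ‖p3 - p0‖ + ‖p0‖ := by
      have := norm_add_le (p3 - p0) p0
      rwa [sub_add_cancel] at this
    linarith only [a4, np, np2, t4, lL, this]

theorem ip_cont (θ : ℝ) {X : Type} [TopologicalSpace X] {f : X → ℂ} (hf : Continuous f) :
    Continuous fun x => ip (exp (θ * I)) (f x) := by
  have : (fun x => ip (exp (θ * I)) (f x))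
      = fun x => Real.cos θ * (f x).re + Real.sin θ * (f x).im := funext fun x => ip_exp _ _
  rw [this]
  exact (continuous_const.mul (continuous_re.comp hf)).add
    (continuous_const.mul (continuous_im.comp hf))

/-- TRE -/
theorem tre : TreStatement := by
  intro δ1 δ2 ρ ε H hε
  obtain ⟨R, hR⟩ := bdd δ1 δ2 ρ H
  set F : ℂ × ℂ × ℂ → ℝ := fun p => max (max p.1.re (ip (exp (δ1 * I)) ρ - ip (exp (δ1 * I)) p.2.1))
    (max (ip (exp (δ2 * I)) ρ - ip (exp (δ2 * I)) p.2.2)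
      (‖p.1 - p.2.1‖ + ‖p.2.1 - p.2.2‖ + ‖p.2.2 - p.1‖ - LE δ1 δ2 ρ)) with hF
  have Fc : Continuous F := by
    have f1 : Continuous fun p : ℂ × ℂ × ℂ => p.1 := continuous_fst
    have f2 : Continuous fun p : ℂ × ℂ × ℂ => p.2.1 := continuous_fst.comp continuous_snd
    have f3 : Continuous fun p : ℂ × ℂ × ℂ => p.2.2 := continuous_snd.comp continuous_snd
    exact ((continuous_re.comp f1).max (continuous_const.sub (ip_cont δ1 f2))).max
      ((continuous_const.sub (ip_cont δ2 f3)).max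
        ((((f1.sub f2).norm.add (f2.sub f3).norm).add (f3.sub f1).norm).sub continuous_const))
  set K : Set (ℂ × ℂ × ℂ) := Metric.closedBall 0 R ∩
    {p | ε ≤ ‖p.1‖ ∨ ε ≤ ‖p.2.1 - Qp δ1 δ2 ρ‖ ∨ ε ≤ ‖p.2.2 - Rp δ1 δ2 ρ‖} with hK
  have Kc : IsCompact K := by
    refine (isCompact_closedBall _ _).inter_right ?_
    have f1 : Continuous fun p : ℂ × ℂ × ℂ => p.1 := continuous_fst
    have f2 : Continuous fun p : ℂ × ℂ × ℂ => p.2.1 := continuous_fst.comp continuous_snd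
    have f3 : Continuous fun p : ℂ × ℂ × ℂ => p.2.2 := continuous_snd.comp continuous_snd
    refine (isClosed_le continuous_const f1.norm).union ((isClosed_le continuous_const
      (f2.sub continuous_const).norm).union (isClosed_le continuous_const
      (f3.sub continuous_const).norm))
  have Fpos : ∀ p ∈ K, 0 < F p := by
    intro p hp
    by_contra h
    push Not at h
    have h1 : p.1.re ≤ 0 := (le_max_left _ _).trans ((le_max_left _ _).trans h)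
    have h2 : ip (exp (δ1 * I)) ρ - ip (exp (δ1 * I)) p.2.1 ≤ 0 :=
      (le_max_right _ _).trans ((le_max_left _ _).trans h)
    have h3 : ip (exp (δ2 * I)) ρ - ip (exp (δ2 * I)) p.2.2 ≤ 0 :=
      (le_max_left _ _).trans ((le_max_right _ _).trans h)
    have h4 : ‖p.1 - p.2.1‖ + ‖p.2.1 - p.2.2‖ + ‖p.2.2 - p.1‖ - LE δ1 δ2 ρ ≤ 0 :=
      (le_max_right _ _).trans ((le_max_right _ _).trans h)
    obtain ⟨u1, u2, u3⟩ := uniq δ1 δ2 ρ H p.1 p.2.1 p.2.2 h1 (by linarith) (by linarith)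
      (by linarith)
    rcases hp.2 with h | h | h
    · rw [u1, norm_zero] at h; linarith
    · rw [u2, sub_self, norm_zero] at h; linarith
    · rw [u3, sub_self, norm_zero] at h; linarith
  have key : ∃ δ : ℝ, 0 < δ ∧ δ ≤ 1 ∧ ∀ p ∈ K, δ < F p := by
    rcases K.eq_empty_or_nonempty with h | h
    · exact ⟨1, one_pos, le_rfl, fun p hp => by rw [h] at hp; exact absurd hp (Set.notMem_empty _)⟩
    · obtain ⟨q, hq, hm⟩ := Kc.exists_isMinOn h Fc.continuousOn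
      have := Fpos q hq
      refine ⟨min 1 (F q / 2), lt_min one_pos (by linarith), min_le_left _ _, fun p hp => ?_⟩
      have h1 : F q ≤ F p := hm hp
      have h2 := min_le_right (1 : ℝ) (F q / 2)
      linarith
  obtain ⟨δ, hδ, hδ1, hδK⟩ := key
  refine ⟨δ, hδ, ?_⟩
  intro p0 p2 p3 a0 a2 a3 a4
  obtain ⟨r1, r2, r3⟩ := hR p0 p2 p3 (by linarith) (by linarith) (by linarith) (by linarith)
  have nK : (p0, p2, p3) ∉ K := by
    intro hp
    have := hδK _ hp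
    have h1 : F (p0, p2, p3) ≤ δ := by
      simp only [hF]
      refine max_le (max_le a0 (by linarith)) (max_le (by linarith) (by linarith))
    linarith
  have mB : (p0, p2, p3) ∈ Metric.closedBall (0 : ℂ × ℂ × ℂ) R := by
    rw [mem_closedBall_zero_iff, Prod.norm_def, Prod.norm_def]
    exact max_le r1 (max_le r2 r3)
  have : ¬ (ε ≤ ‖p0‖ ∨ ε ≤ ‖p2 - Qp δ1 δ2 ρ‖ ∨ ε ≤ ‖p3 - Rp δ1 δ2 ρ‖) := fun h => nK ⟨mB, h⟩
  push Not at this
  exact this

end Pool.Agent.XQ.K4.H43
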