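import Pool.Agent.Helper36_XQ.Stmt5
import Pool.Agent.Helper66_XQ.Trf

/-!
Squad XQ (MP_5b0138_an), part E4, module TTX: the flux in the unfolded frame.
-/

set_option autoImplicit false

namespace Pool.Agent.XQ.K4.H43

open MeasureTheory Complex Filter Topology ProbabilityTheory Pool.Agent.H16Iso Pool.Agent.H62T
  Pool.Agent.H16F Pool.Agent.H38KL Pool.Agent.AEU
open scoped ComplexConjugate

theorem two_ip (d x : ℂ) : ((2 * ip d x : ℝ) : ℂ) = d * conj x + conj d * x := by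
  apply Complex.ext <;> simp [ip] <;> ring

/-- the linear part of `mi` -/
noncomputable def La (δ1 δ2 : ℝ) : ℂ ≃ₗᵢ[ℝ] ℂ :=
  conjLIE.trans (rotation (Circle.exp (gE δ1 δ2 + 2 * δ1 + Real.pi)))

theorem mi_eq (δ1 δ2 ρ : ℝ) (x : ℂ) : mi δ1 δ2 ρ x = La δ1 δ2 x
    + ((2 * ip (exp (δ1 * I)) ρ : ℝ) : ℂ) * exp ((gE δ1 δ2 + δ1 : ℝ) * I) := by
  have h1 : La δ1 δ2 x = exp ((gE δ1 δ2 + 2 * δ1 + Real.pi : ℝ) * I) * conj x := by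
    rw [← Circle.coe_exp]
    rfl
  have h2 : exp ((gE δ1 δ2 + 2 * δ1 + Real.pi : ℝ) * I)
      = -(exp (gE δ1 δ2 * I) * exp (δ1 * I) * exp (δ1 * I)) := by
    rw [← Complex.exp_add, ← Complex.exp_add, neg_eq_neg_one_mul, ← Complex.exp_pi_mul_I,
      ← Complex.exp_add]
    congr 1
    push_cast
    ring
  have h3 : exp ((gE δ1 δ2 + δ1 : ℝ) * I) = exp (gE δ1 δ2 * I) * exp (δ1 * I) := by
    rw [← Complex.exp_add]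
    congr 1
    push_cast
    ring
  have h4 : conj (exp (δ1 * I)) * exp (δ1 * I) = 1 := by
    rw [← Complex.exp_conj, ← Complex.exp_add]
    simp
  have h5 : (((2 * (ip (exp (δ1 * I)) x - ip (exp (δ1 * I)) ρ) : ℝ)) : ℂ)
      = (exp (δ1 * I) * conj x + conj (exp (δ1 * I)) * x)
        - ((2 * ip (exp (δ1 * I)) ρ : ℝ) : ℂ) := by
    rw [← two_ip]
    push_cast
    ring
  unfold mi rfq
  rw [h5, h1, h2, h3]
  linear_combination (-(exp (gE δ1 δ2 * I) * x)) * h4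

theorem mi_mp (δ1 δ2 ρ : ℝ) : MeasurePreserving (mi δ1 δ2 ρ) volume volume := by
  have : mi δ1 δ2 ρ = (fun y => y
    + ((2 * ip (exp (δ1 * I)) ρ : ℝ) : ℂ) * exp ((gE δ1 δ2 + δ1 : ℝ) * I)) ∘ La δ1 δ2 :=
    funext fun x => mi_eq δ1 δ2 ρ x
  rw [this]
  exact (measurePreserving_add_right volume _).comp (La δ1 δ2).measurePreserving

theorem mi_emb (δ1 δ2 ρ : ℝ) : MeasurableEmbedding (mi δ1 δ2 ρ) := by
  have : mi δ1 δ2 ρ = (fun y => y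
    + ((2 * ip (exp (δ1 * I)) ρ : ℝ) : ℂ) * exp ((gE δ1 δ2 + δ1 : ℝ) * I)) ∘ La δ1 δ2 :=
    funext fun x => mi_eq δ1 δ2 ρ x
  rw [this]
  exact (measurableEmbedding_addRight _).comp (La δ1 δ2).toHomeomorph.measurableEmbedding

theorem ttx_aux (η1 η2 δ1 δ2 ρ δ ζ a t : ℝ) (hp : PteStatement) (H : HyL δ1 δ2 ρ)
    (O E₁ : Finset (Fin 4)) (O' E' : Finset (Fin 3))
    (hk : ∀ x y : ℂ, kME (uE η1 η2 δ1 δ2) (hE δ1 δ2 ρ) O E₁ (t - a) x y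
      = H60K.kME (H60K.us η1 η2) (H60K.hh 1) O' E' (t - a) x y) :
    TTG (uE η1 η2 δ1 δ2) (hE δ1 δ2 ρ) O E₁ (CE δ1 δ2 ρ) (WE δ1 δ2 ρ δ ζ) a t
      = E.TTE η1 η2 (gE δ1 δ2) (LE δ1 δ2 ρ) O' E' (xiE δ1 δ2 ρ) δ ζ ζ a t := by
  obtain ⟨-, -, -, -, -, -, -, -, -, -, -, -, hiso, hrf⟩ := hp δ1 δ2 ρ H
  have hG : ∀ x y : ℂ, G a (x - y) = G a (mi δ1 δ2 ρ x - mi δ1 δ2 ρ y) := by
    intro x y
    unfold G
    rw [hiso]
  have hc : ∀ x : ℂ, chi (CE δ1 δ2 ρ) x = H60K.ch (xiE δ1 δ2 ρ) (mi δ1 δ2 ρ x) := by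
    intro x
    unfold chi CE H60K.ch
    rw [Set.indicator_apply]
    rfl
  unfold TTG E.TTE
  have hW : WE δ1 δ2 ρ δ ζ = mi δ1 δ2 ρ ⁻¹' H60K.Rw (xiE δ1 δ2 ρ) δ ζ ζ := rfl
  have key : ∀ f : ℂ → ℝ, ∫ x in H60K.Rw (xiE δ1 δ2 ρ) δ ζ ζ, f x
      = ∫ x in mi δ1 δ2 ρ ⁻¹' H60K.Rw (xiE δ1 δ2 ρ) δ ζ ζ, f (mi δ1 δ2 ρ x) := fun f =>
    ((mi_mp δ1 δ2 ρ).setIntegral_preimage_emb (mi_emb δ1 δ2 ρ) f _).symm
  rw [hW, key]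
  congr 1
  funext x
  rw [key]
  congr 1
  funext y
  rw [hG, hc, hc, hk, (hrf η1 η2 y).2.1, (hrf η1 η2 x).1]

/-- TTX -/
theorem ttx (hp : PteStatement) : TtxStatement := by
  intro η1 η2 δ1 δ2 ρ δ ζ a t H ha hat
  have h1 : ∀ x, ip (uE η1 η2 δ1 δ2 0) (IsometryEquiv.refl ℂ x) - hE δ1 δ2 ρ 0
      = ip (H60K.us η1 η2 1) x := by
    intro x; simp [uE, hE, H60K.us]; rfl
  have h2 : ∀ x, ip (uE η1 η2 δ1 δ2 1) (IsometryEquiv.refl ℂ x) - hE δ1 δ2 ρ 1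
      = ip (H60K.us η1 η2 2) x := by
    intro x; simp [uE, hE, H60K.us]; rfl
  have T := fun x y => H66.trf (uE η1 η2 δ1 δ2) (hE δ1 δ2 ρ) (IsometryEquiv.refl ℂ) 0 1 η1 η2
    (by decide) h1 h2 (t - a) x y (by linarith)
  exact ⟨ttx_aux η1 η2 δ1 δ2 ρ δ ζ a t hp H _ _ _ _ (fun x y => (T x y).1),
    ttx_aux η1 η2 δ1 δ2 ρ δ ζ a t hp H _ _ _ _ (fun x y => (T x y).2)⟩

end Pool.Agent.XQ.K4.H43
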